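import Pool.Agent.H60.FG.Rows

/-!
# MP_2822c4_an, row REC of FewerGenerators: decay of the energy implies that the potential is bounded
-/

set_option autoImplicit false

open scoped ENNReal NNReal
open scoped Classical

namespace Pool.Agent.H57.FG.REC

open Pool.Agent.H60.FG Pool.Agent.H14.NS

/-- summability of the energy -/
theorem summ_sq {κ : Type*} (v : L 2 κ) : Summable fun q => ‖v q‖ ^ 2 := by
  have h := (memℓp_gen_iff (p := (2 : ℝ≥0∞)) (by norm_num)).1 (lp.memℓp v)
  simpa using h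

theorem summ_en {κ : Type*} (v : L 2 κ) (E : Set κ) :
    Summable fun q => if q ∈ E then ‖v q‖ ^ 2 else 0 := by
  refine Summable.of_nonneg_of_le (fun q => ?_) (fun q => ?_) (summ_sq v)
  · split_ifs <;> positivity
  · split_ifs
    · exact le_rfl
    · positivity

theorem en_nonneg {κ : Type*} (v : κ → ℂ) (E : Set κ) : 0 ≤ en E v :=
  tsum_nonneg fun q => by split_ifs <;> positivity

/-- one edge -/
theorem le_en {κ : Type*} (v : L 2 κ) (E : Set κ) (q : κ) (hq : q ∈ E) :
    ‖v q‖ ≤ Real.sqrt (en E (fun q => v q)) := by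
  refine Real.le_sqrt_of_sq_le ?_
  have h := (summ_en v E).le_tsum q fun r _ => by split_ifs <;> positivity
  rw [if_pos hq] at h
  exact h

/-- the energy of the branch splits -/
theorem en_split (hG2 : T_G2) {ι : Type} (ψ : H (FreeGroup ι) ι) (M : ℕ) (p q : FreeGroup ι)
    (s s' : ι × Bool) (hq : q ∈ Hs s) (hn : FreeGroup.norm q = M) (hRC : RC q s') :
    en (Es s') (fun r => lam (p * q)⁻¹ ψ r) + en (Es s ∩ Bm M) (fun r => lam p⁻¹ ψ r) ≤
      en (Es s) (fun r => lam p⁻¹ ψ r) := by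
  set v : H (FreeGroup ι) ι := lam p⁻¹ ψ with hv
  set π : ι × FreeGroup ι → ι × FreeGroup ι := fun r => (r.1, q * r.2) with hπ
  have hinj : Function.Injective π := by
    intro a b h
    have h1 := (Prod.ext_iff.1 h).1
    have h2 := (Prod.ext_iff.1 h).2
    exact Prod.ext h1 (mul_left_cancel h2)
  have hw : ∀ r : ι × FreeGroup ι, lam (p * q)⁻¹ ψ r = v (π r) := by
    rintro ⟨k, x⟩
    show lam (p * q)⁻¹ ψ (k, x) = lam p⁻¹ ψ (k, q * x)
    rw [lam_apply, lam_apply, inv_inv, inv_inv, mul_assoc]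
  obtain ⟨E', hE'⟩ : ∃ E' : Set (ι × FreeGroup ι), E' = Es s \ Bm M := ⟨_, rfl⟩
  set f : ι × FreeGroup ι → ℝ := fun r => if r ∈ E' then ‖v r‖ ^ 2 else 0 with hf
  have hfs : Summable f := summ_en v E'
  have hf0 : ∀ r, 0 ≤ f r := fun r => by
    simp only [hf]
    split_ifs <;> positivity
  have hmem : ∀ r : ι × FreeGroup ι, r ∈ Es s' → π r ∈ E' := by
    rw [hE']
    rintro ⟨k, x⟩ ⟨h1, h2⟩
    have h3 := hG2 ι s' q x hRC h1
    have h4 := hG2 ι s' q (x * (FreeGroup.of k)⁻¹) hRC h2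
    refine ⟨⟨h3.2 s hq, ?_⟩, ?_⟩
    · show q * x * (FreeGroup.of k)⁻¹ ∈ Hs s
      rw [mul_assoc]
      exact h4.2 s hq
    · intro h5
      have h6 : FreeGroup.norm (q * x) ≤ M := h5
      rw [h3.1, hn] at h6
      have h7 : FreeGroup.norm x = 0 := by omega
      rw [FreeGroup.norm_eq_zero] at h7
      have h8 : (x.toWord).head? = some s' := h1
      rw [h7, FreeGroup.toWord_one] at h8
      simp at h8
  have h1 : en (Es s') (fun r => lam (p * q)⁻¹ ψ r) ≤ ∑' r, f r := by
    have h2 : en (Es s') (fun r => lam (p * q)⁻¹ ψ r) ≤ ∑' r, f (π r) := by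
      unfold en
      refine (summ_en (lam (p * q)⁻¹ ψ) (Es s')).tsum_le_tsum (fun r => ?_)
        (hfs.comp_injective hinj)
      by_cases hr : r ∈ Es s'
      · rw [if_pos hr]
        show ‖lam (p * q)⁻¹ ψ r‖ ^ 2 ≤ f (π r)
        rw [hw r]
        simp only [hf]
        rw [if_pos (hmem r hr)]
      · rw [if_neg hr]
        exact hf0 _
    exact h2.trans (tsum_comp_le_tsum_of_inj hfs hf0 hinj)
  have h2 : ∑' r, f r + en (Es s ∩ Bm M) (fun r => v r) = en (Es s) (fun r => v r) := by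
    unfold en
    rw [← hfs.tsum_add (summ_en v (Es s ∩ Bm M))]
    refine tsum_congr fun r => ?_
    simp only [hf]
    subst hE'
    by_cases h3 : r ∈ Es s
    · by_cases h4 : r ∈ Bm M
      · rw [if_neg (fun h : r ∈ Es s \ Bm M => h.2 h4), if_pos (show r ∈ Es s ∩ Bm M from ⟨h3, h4⟩),
          if_pos h3, zero_add]
      · rw [if_pos (show r ∈ Es s \ Bm M from ⟨h3, h4⟩), if_neg (fun h : r ∈ Es s ∩ Bm M => h4 h.2),
          if_pos h3, add_zero]
    · rw [if_neg (fun h : r ∈ Es s \ Bm M => h3 h.1), if_neg (fun h : r ∈ Es s ∩ Bm M => h3 h.1),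
        if_neg h3, add_zero]
  linarith

theorem pf_REC (hG2 : T_G2) (hG3 : T_G3) (hG4 : T_G4) : T_REC := by
  intro ι ψ M C hM hC hE P hP
  have hM' : (1 : ℝ) ≤ M := by exact_mod_cast hM
  set ρ : ℝ := Real.sqrt (1 - 1 / C) with hρ
  have hC0 : 0 < C := by linarith
  have hC1 : 1 / C ≤ 1 := by
    rw [div_le_one hC0]
    exact hC
  have hC2 : 0 < 1 / C := by positivity
  have hρ0 : 0 ≤ ρ := Real.sqrt_nonneg _
  have hρ1 : ρ < 1 := by
    rw [hρ, Real.sqrt_lt' one_pos]
    linarith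
  set A : ℝ := M / (1 - ρ) with hA
  have hA1 : A * (1 - ρ) = M := by
    rw [hA]
    exact div_mul_cancel₀ _ (by linarith)
  have hA0 : 0 ≤ A := by
    rw [hA]
    exact div_nonneg (by linarith) (by linarith)
  have hAM : (M : ℝ) ≤ A := by
    nlinarith
  -- the potential after `p`
  have hpot : ∀ p : FreeGroup ι, Pot (fun q => lam p⁻¹ ψ q) (fun y => P (p * y)) := by
    intro p k x
    show P (p * (x * (FreeGroup.of k)⁻¹)) - P (p * x) = lam p⁻¹ ψ (k, x)
    rw [lam_apply, inv_inv, ← mul_assoc]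
    exact hP k (p * x)
  have hG4' : ∀ (p : FreeGroup ι) (s : ι × Bool) (z : FreeGroup ι), z ∈ Hs s →
      ‖P (p * z) - P (p * FreeGroup.mk [s])‖ ≤ (FreeGroup.norm z - 1 : ℕ) *
        Real.sqrt (en (Es s) (fun q => lam p⁻¹ ψ q)) := fun p s z hz =>
    hG4 ι s _ _ _ z (hpot p) (Real.sqrt_nonneg _) (fun q hq => le_en (lam p⁻¹ ψ) (Es s) q hq) hz
  have key : ∀ (n : ℕ) (p : FreeGroup ι) (s : ι × Bool) (z : FreeGroup ι), RC p s → z ∈ Hs s →
      FreeGroup.norm z ≤ n → ‖P (p * z) - P (p * FreeGroup.mk [s])‖ ≤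
        A * Real.sqrt (en (Es s) (fun q => lam p⁻¹ ψ q)) := by
    intro n
    induction n using Nat.strong_induction_on with
    | _ n ih =>
      intro p s z hRC hz hzn
      have hs0 := Real.sqrt_nonneg (en (Es s) (fun q => lam p⁻¹ ψ q))
      rcases Nat.lt_or_ge M (FreeGroup.norm z) with hlt | hle
      · obtain ⟨q, z', s', hzq, hq, hqn, hRq, hz', hz'n, hqs, hqsn, hRp⟩ := hG3 ι s M z hz hM hlt
        have h1 := ih (FreeGroup.norm z') (by omega) (p * q) s' z' (hRp p hRC) hz' le_rfl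
        have h2 := hG4' p s (q * FreeGroup.mk [s']) hqs
        rw [hqsn, Nat.add_sub_cancel] at h2
        have h3 := en_split hG2 ψ M p q s s' hq hqn hRq
        have h4 := hE p s hRC
        have h5 : en (Es s') (fun q_1 => lam (p * q)⁻¹ ψ q_1) ≤
            (1 - 1 / C) * en (Es s) (fun r => lam p⁻¹ ψ r) := by
          have h6 : 1 / C * en (Es s) (fun r => lam p⁻¹ ψ r) ≤
              en (Es s ∩ Bm M) (fun r => lam p⁻¹ ψ r) := by
            rw [one_div, inv_mul_le_iff₀ hC0]
            exact h4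
          linarith
        have h6 : Real.sqrt (en (Es s') (fun q_1 => lam (p * q)⁻¹ ψ q_1)) ≤
            ρ * Real.sqrt (en (Es s) (fun r => lam p⁻¹ ψ r)) := by
          rw [hρ, ← Real.sqrt_mul (by linarith)]
          exact Real.sqrt_le_sqrt h5
        have h7 : P (p * z) - P (p * FreeGroup.mk [s]) =
            (P (p * q * z') - P (p * q * FreeGroup.mk [s'])) +
              (P (p * (q * FreeGroup.mk [s'])) - P (p * FreeGroup.mk [s])) := by
          rw [hzq, ← mul_assoc, ← mul_assoc]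
          ring
        rw [h7]
        refine (norm_add_le _ _).trans ((add_le_add h1 h2).trans ?_)
        calc A * Real.sqrt (en (Es s') (fun q_1 => lam (p * q)⁻¹ ψ q_1)) +
              (M : ℝ) * Real.sqrt (en (Es s) (fun r => lam p⁻¹ ψ r)) ≤
            A * (ρ * Real.sqrt (en (Es s) (fun r => lam p⁻¹ ψ r))) +
              (M : ℝ) * Real.sqrt (en (Es s) (fun r => lam p⁻¹ ψ r)) := by
              gcongr
          _ = A * Real.sqrt (en (Es s) (fun r => lam p⁻¹ ψ r)) := by
              rw [← hA1]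
              ring
      · refine (hG4' p s z hz).trans (mul_le_mul_of_nonneg_right ?_ hs0)
        have h1 : ((FreeGroup.norm z - 1 : ℕ) : ℝ) ≤ M := by
          have : FreeGroup.norm z - 1 ≤ M := by omega
          exact_mod_cast this
        linarith
  -- the total energy
  set E : ℝ := ∑' q, ‖ψ q‖ ^ 2 with hEdef
  have hψE : ∀ q, ‖ψ q‖ ≤ Real.sqrt E := by
    intro q
    refine Real.le_sqrt_of_sq_le ?_
    exact (summ_sq ψ).le_tsum q fun r _ => by positivity
  have henE : ∀ s : ι × Bool, Real.sqrt (en (Es s) (fun q => lam (1 : FreeGroup ι)⁻¹ ψ q)) ≤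
      Real.sqrt E := by
    intro s
    refine Real.sqrt_le_sqrt ?_
    have h1 : ∀ q : ι × FreeGroup ι, lam (1 : FreeGroup ι)⁻¹ ψ q = ψ q := by
      rintro ⟨k, x⟩
      rw [lam_apply]
      simp
    unfold en
    simp only [h1]
    refine (summ_en ψ (Es s)).tsum_le_tsum (fun q => ?_) (summ_sq ψ)
    split_ifs
    · exact le_rfl
    · positivity
  have hstep : ∀ s : ι × Bool, ‖P (FreeGroup.mk [s]) - P 1‖ ≤ Real.sqrt E := by
    rintro ⟨k, β⟩
    cases β
    · have h1 : FreeGroup.mk [(k, false)] = 1 * (FreeGroup.of k)⁻¹ := by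
        rw [one_mul]
        rfl
      rw [h1, hP k 1]
      exact hψE _
    · have h1 : (1 : FreeGroup ι) = FreeGroup.mk [(k, true)] * (FreeGroup.of k)⁻¹ := by
        have : FreeGroup.mk [(k, true)] = FreeGroup.of k := rfl
        rw [this, mul_inv_cancel]
      rw [norm_sub_rev, h1, hP k (FreeGroup.mk [(k, true)])]
      exact hψE _
  refine ⟨‖P 1‖ + Real.sqrt E + A * Real.sqrt E, fun x => ?_⟩
  have hE0 : 0 ≤ Real.sqrt E := Real.sqrt_nonneg _
  cases hx : x.toWord with
  | nil =>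
    have h1 : x = 1 := FreeGroup.toWord_eq_nil_iff.1 hx
    rw [h1]
    have : 0 ≤ A * Real.sqrt E := by positivity
    linarith
  | cons s t =>
    have hxs : x ∈ Hs s := by
      show x.toWord.head? = some s
      rw [hx]
      rfl
    have hRC : RC 1 s := by
      unfold RC
      rw [FreeGroup.toWord_one, List.nil_append]
      exact FreeGroup.IsReduced.singleton
    have h1 := key _ 1 s x hRC hxs le_rfl
    rw [one_mul, one_mul] at h1
    have h2 := henE s
    have h3 := hstep s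
    have h4 : A * Real.sqrt (en (Es s) (fun q => lam (1 : FreeGroup ι)⁻¹ ψ q)) ≤
        A * Real.sqrt E := mul_le_mul_of_nonneg_left h2 hA0
    have h5 : P x = P 1 + (P (FreeGroup.mk [s]) - P 1) + (P x - P (FreeGroup.mk [s])) := by ring
    rw [h5]
    refine (norm_add_le _ _).trans ?_
    have h6 := norm_add_le (P 1) (P (FreeGroup.mk [s]) - P 1)
    linarith

end Pool.Agent.H57.FG.REC
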